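import Pool.Agent.N791.RU.Basic
import Pool.Agent.H349R2.Tet.Final2
import Mathlib.MeasureTheory.Measure.Lebesgue.VolumeOfBalls

/-!
# Centrally symmetric bodies and ellipsoids
-/

namespace Pool.Agent.N791.RU

open MeasureTheory Filter
open scoped ENNReal Pointwise
open Pool.Agent.H349R2.Tet Pool.Agent.TH219.DL

theorem tr_tr (K : Set V) (a b : V) : tr (tr K a) b = tr K (a + b) := by
  unfold tr
  rw [Set.image_image]
  apply Set.image_congr
  intro x _
  abel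

theorem rfl_shift (K : Set V) (c a : V) : rfl' K (c + a) = tr (rfl' K c) a := by
  unfold tr rfl'
  rw [Set.image_image]
  apply Set.image_congr
  intro x _
  abel

/-- a centrally symmetric body: `δ_L ≤ δ_{L*}` -/
theorem sym_dLs {K : Set V} (hK : Body K) (c : V) (hs : rfl' K c = K) : dL K ≤ dLs K := by
  obtain ⟨hKc, hc, hne⟩ := hK
  unfold dL
  refine iSup₂_le fun b hb => ?_
  rw [den_famL]
  have hP : Packs K b := (packs_famL K b).1 hb
  obtain ⟨hd0, hov⟩ := (packs_iff K b).1 hP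
  -- the sublattice of index two
  set b' : Fin 3 → V := ![(2 : ℝ) • b 0, b 1, b 2] with hb'
  have hdt : dt b' = 2 * dt b := by
    unfold dt
    rw [Matrix.det_fin_three, Matrix.det_fin_three]
    simp [hb']
    ring
  have hd0' : dt b' ≠ 0 := by rw [hdt]; exact mul_ne_zero two_ne_zero hd0
  have hli : LinearIndependent ℝ b' := (dt_ne_zero_iff b').1 hd0'
  have hsub : lat b' ⊆ lat b := by
    rintro x ⟨z, hz⟩
    refine ⟨![2 * z 0, z 1, z 2], ?_⟩
    rw [hz, Fin.sum_univ_three, Fin.sum_univ_three]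
    simp [hb', smul_smul, mul_comm]
  have hodd : ∀ s ∈ lat b', b 0 + s ∈ lat b ∧ b 0 + s ≠ 0 := by
    rintro s ⟨z, hz⟩
    have hrep : b 0 + s = ∑ i, ((![2 * z 0 + 1, z 1, z 2] : Fin 3 → ℤ) i : ℝ) • b i := by
      rw [hz, Fin.sum_univ_three, Fin.sum_univ_three]
      simp [hb', smul_smul, add_smul, mul_comm]
      abel
    refine ⟨⟨_, hrep⟩, fun h0 => ?_⟩
    rw [h0] at hrep
    have hb1 : LinearIndependent ℝ b := (dt_ne_zero_iff b).1 hd0
    have := Fintype.linearIndependent_iff.1 hb1 _ hrep.symm 0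
    have h2 : ((2 * z 0 + 1 : ℤ) : ℝ) = 0 := by simpa using this
    have h3 : (2 * z 0 + 1 : ℤ) = 0 := by exact_mod_cast h2
    omega
  have h1 : ∀ s ∈ lat b', s ≠ 0 → ¬ Ov K s := fun s hs' hs0 => hov s (hsub hs') hs0
  have h2 : ∀ s ∈ lat b', Disjoint (interior K) (interior (tr (rfl' K (c + b 0)) s)) := by
    intro s hs'
    obtain ⟨h3, h4⟩ := hodd s hs'
    rw [rfl_shift, hs, tr_tr]
    have := hP.2 0 (pack_zero_mem b) (b 0 + s) h3 (Ne.symm h4)
    have e : tr K 0 = K := by unfold tr; simp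
    rwa [e] at this
  have hle : den K (famLs (c + b 0) b') ≤ dLs K := by
    unfold dLs
    exact le_iSup_of_le (c + b 0) (le_iSup₂_of_le b' ⟨hli, famLs_pack h1 h2⟩ le_rfl)
  refine le_trans ?_ ((den_famLs K (c + b 0) b').trans hle)
  rw [dens_eq b hb.1 K hKc, dens_eq b' hli _ (hKc.union (rfl_compact hKc _)), hdt, abs_mul,
    ENNReal.ofReal_mul (by positivity)]
  have hd : Disjoint (interior K) (interior (rfl' K (c + b 0))) := by
    have := h2 0 (pack_zero_mem b')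
    have e : tr (rfl' K (c + b 0)) 0 = rfl' K (c + b 0) := by unfold tr; simp
    rwa [e] at this
  have hrc : Convex ℝ (rfl' K (c + b 0)) := by
    rintro _ ⟨x, hx, rfl⟩ _ ⟨y, hy, rfl⟩ α β hα hβ hαβ
    refine ⟨α • x + β • y, hc hx hy hα hβ hαβ, ?_⟩
    have e : (c + b 0) = α • (c + b 0) + β • (c + b 0) := by rw [← add_smul, hαβ, one_smul]
    simp only [smul_sub]
    nth_rewrite 1 [e]
    abel
  have hvol : 2 * volume K ≤ volume (K ∪ rfl' K (c + b 0)) := by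
    calc 2 * volume K = volume (interior K) + volume (interior (rfl' K (c + b 0))) := by
          rw [vol_int hc, vol_int hrc, vol_rfl hKc.measurableSet, two_mul]
      _ = volume (interior K ∪ interior (rfl' K (c + b 0))) :=
          (measure_union hd isOpen_interior.measurableSet).symm
      _ ≤ volume (K ∪ rfl' K (c + b 0)) :=
          measure_mono (Set.union_subset_union interior_subset interior_subset)
  have h20 : ENNReal.ofReal |(2 : ℝ)| = 2 := by
    rw [abs_of_pos (by norm_num)]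
    norm_num
  rw [h20]
  calc volume K / ENNReal.ofReal |dt b| = (2 * volume K) / (2 * ENNReal.ofReal |dt b|) :=
        (ENNReal.mul_div_mul_left _ _ (by norm_num) (by norm_num)).symm
    _ ≤ _ := ENNReal.div_le_div_right hvol _

theorem bl_cpt : IsCompact (Bl 1) := by
  have hcl : IsClosed (Bl 1) := isClosed_le (by fun_prop) (by fun_prop)
  exact (isCompact_closedBall (0 : V) 1).of_isClosed_subset hcl (bl_subset_ball 1 zero_le_one)

theorem bl_int {x : V} (hx : x ∈ interior (Bl 1)) : x 0 ^ 2 + x 1 ^ 2 + x 2 ^ 2 < 1 := by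
  rw [mem_interior_iff_mem_nhds] at hx
  have ht : Filter.Tendsto (fun ε : ℝ => x + ε • x) (nhds 0) (nhds x) := by
    have hc : Continuous (fun ε : ℝ => x + ε • x) := by fun_prop
    have := hc.tendsto 0
    simpa using this
  have h1 : ∀ᶠ ε : ℝ in nhdsWithin 0 (Set.Ioi 0), x + ε • x ∈ Bl 1 :=
    (ht.eventually hx).filter_mono nhdsWithin_le_nhds
  obtain ⟨ε, h2, h3⟩ := (h1.and self_mem_nhdsWithin).exists
  have h4 : (0 : ℝ) < ε := h3
  have h5 : (x 0 + ε * x 0) ^ 2 + (x 1 + ε * x 1) ^ 2 + (x 2 + ε * x 2) ^ 2 ≤ 1 ^ 2 := h2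
  by_contra hcon
  push Not at hcon
  nlinarith [mul_pos h4 h4, mul_le_mul_of_nonneg_left hcon h4.le,
    mul_le_mul_of_nonneg_left hcon (mul_pos h4 h4).le]

theorem bl_body : Body (Bl 1) := by
  refine ⟨bl_cpt, ?_, ?_⟩
  · intro x hx y hy a b ha hb hab
    have hx' : x 0 ^ 2 + x 1 ^ 2 + x 2 ^ 2 ≤ 1 ^ 2 := hx
    have hy' : y 0 ^ 2 + y 1 ^ 2 + y 2 ^ 2 ≤ 1 ^ 2 := hy
    show (a * x 0 + b * y 0) ^ 2 + (a * x 1 + b * y 1) ^ 2 + (a * x 2 + b * y 2) ^ 2 ≤ 1 ^ 2
    have hb' : b = 1 - a := by linarith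
    subst hb'
    have h0 : 0 ≤ a * (1 - a) := mul_nonneg ha hb
    nlinarith [mul_nonneg h0 (add_nonneg (add_nonneg (sq_nonneg (x 0 - y 0))
      (sq_nonneg (x 1 - y 1))) (sq_nonneg (x 2 - y 2))), mul_le_mul_of_nonneg_left hx' ha,
      mul_le_mul_of_nonneg_left hy' hb]
  · refine ⟨0, ?_⟩
    rw [mem_interior]
    refine ⟨{x : V | x 0 ^ 2 + x 1 ^ 2 + x 2 ^ 2 < 1}, ?_, isOpen_lt (by fun_prop) (by fun_prop),
      by simp⟩
    intro x hx
    have : x 0 ^ 2 + x 1 ^ 2 + x 2 ^ 2 < 1 := hx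
    show x 0 ^ 2 + x 1 ^ 2 + x 2 ^ 2 ≤ 1 ^ 2
    linarith

theorem vol_bl1 : volume (Bl 1) = ENNReal.ofReal (4 / 3 * Real.pi) := by
  have hpre : (WithLp.toLp 2 : V → EuclideanSpace ℝ (Fin 3)) ⁻¹' (Metric.closedBall 0 1) = Bl 1 := by
    ext x
    rw [Set.mem_preimage, mem_closedBall_zero_iff, EuclideanSpace.norm_eq,
      Real.sqrt_le_one, Fin.sum_univ_three]
    show _ ↔ x 0 ^ 2 + x 1 ^ 2 + x 2 ^ 2 ≤ 1 ^ 2
    simp [sq_abs]
  have h := (PiLp.volume_preserving_toLp (Fin 3)).measure_preimage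
    (Metric.isClosed_closedBall (x := (0 : EuclideanSpace ℝ (Fin 3))) (ε := 1)).measurableSet.nullMeasurableSet
  rw [hpre] at h
  rw [h, EuclideanSpace.volume_closedBall_fin_three]
  rw [ENNReal.ofReal_one, one_pow, one_mul]
  congr 1
  ring

/-- the face-centred cubic lattice -/
noncomputable def fcc : Fin 3 → V :=
  ![![√2, √2, 0], ![√2, 0, √2], ![0, √2, √2]]

theorem fcc_dt : |dt fcc| = 4 * √2 := by
  have h : dt fcc = -(4 * √2) := by
    unfold dt fcc
    rw [Matrix.det_fin_three]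
    simp
    have : √2 * √2 = 2 := Real.mul_self_sqrt (by norm_num)
    nlinarith [this]
  rw [h, abs_neg, abs_of_pos (by positivity)]

theorem fcc_packs : Packs (Bl 1) fcc := by
  have hp : 0 < 4 * √2 := by positivity
  rw [packs_iff]
  refine ⟨fun h0 => ?_, ?_⟩
  · have := fcc_dt
    rw [h0, abs_zero] at this
    linarith
  · rintro u ⟨z, hz⟩ hne ⟨x, hx, hxu⟩
    have h1 := bl_int hx
    have h2 := bl_int hxu
    have e0 : u 0 = √2 * ((z 0 : ℝ) + z 1) := by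
      rw [hz]; simp [fcc, Fin.sum_univ_three]; ring
    have e1 : u 1 = √2 * ((z 0 : ℝ) + z 2) := by
      rw [hz]; simp [fcc, Fin.sum_univ_three]; ring
    have e2 : u 2 = √2 * ((z 1 : ℝ) + z 2) := by
      rw [hz]; simp [fcc, Fin.sum_univ_three]; ring
    have hs : √2 ^ 2 = 2 := Real.sq_sqrt (by norm_num)
    have hu : u 0 ^ 2 + u 1 ^ 2 + u 2 ^ 2
        = 2 * ((z 0 : ℝ) ^ 2 + z 1 ^ 2 + z 2 ^ 2 + (z 0 + z 1 + z 2) ^ 2) := by
      rw [e0, e1, e2, mul_pow, mul_pow, mul_pow, hs]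
      ring
    have hlt : u 0 ^ 2 + u 1 ^ 2 + u 2 ^ 2 < 4 := by
      simp only [Pi.sub_apply] at h2
      nlinarith [sq_nonneg (x 0 + (x 0 - u 0)), sq_nonneg (x 1 + (x 1 - u 1)),
        sq_nonneg (x 2 + (x 2 - u 2))]
    rw [hu] at hlt
    have hz2 : (z 0 ^ 2 + z 1 ^ 2 + z 2 ^ 2 + (z 0 + z 1 + z 2) ^ 2 : ℤ) < 2 := by
      have : ((z 0 ^ 2 + z 1 ^ 2 + z 2 ^ 2 + (z 0 + z 1 + z 2) ^ 2 : ℤ) : ℝ) < 2 := by
        push_cast
        linarith
      exact_mod_cast this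
    have hne' : ¬ (z 0 = 0 ∧ z 1 = 0 ∧ z 2 = 0) := by
      rintro ⟨a, b, c⟩
      apply hne
      rw [hz]
      simp [Fin.sum_univ_three, a, b, c]
    -- the form is even
    have hev : (z 0 ^ 2 + z 1 ^ 2 + z 2 ^ 2 + (z 0 + z 1 + z 2) ^ 2 : ℤ)
        = 2 * (z 0 ^ 2 + z 1 ^ 2 + z 2 ^ 2 + z 0 * z 1 + z 0 * z 2 + z 1 * z 2) := by ring
    rw [hev] at hz2
    have h0 : (z 0 ^ 2 + z 1 ^ 2 + z 2 ^ 2 + z 0 * z 1 + z 0 * z 2 + z 1 * z 2 : ℤ) ≤ 0 := by
      omega
    have h3 : z 0 ^ 2 + z 1 ^ 2 + z 2 ^ 2 ≤ 0 := by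
      nlinarith [sq_nonneg (z 0 + z 1 + z 2)]
    apply hne'
    refine ⟨?_, ?_, ?_⟩
    · have : z 0 ^ 2 ≤ 0 := by nlinarith [sq_nonneg (z 1), sq_nonneg (z 2)]
      exact pow_eq_zero_iff (two_ne_zero) |>.1 (le_antisymm this (sq_nonneg _))
    · have : z 1 ^ 2 ≤ 0 := by nlinarith [sq_nonneg (z 0), sq_nonneg (z 2)]
      exact pow_eq_zero_iff (two_ne_zero) |>.1 (le_antisymm this (sq_nonneg _))
    · have : z 2 ^ 2 ≤ 0 := by nlinarith [sq_nonneg (z 0), sq_nonneg (z 1)]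
      exact pow_eq_zero_iff (two_ne_zero) |>.1 (le_antisymm this (sq_nonneg _))

theorem dL_ball : ENNReal.ofReal 0.7404 ≤ dL (Bl 1) := by
  rw [dL_eq]
  refine le_trans ?_ (le_iSup₂ (f := fun b (_ : Packs (Bl 1) b) => dens (Bl 1) b) fcc fcc_packs)
  rw [dens_eq fcc fcc_packs.1 _ bl_cpt, vol_bl1, fcc_dt,
    ← ENNReal.ofReal_div_of_pos (by positivity)]
  apply ENNReal.ofReal_le_ofReal
  have hpi := Real.pi_gt_d6
  have h2 : √2 < 1.41422 := by
    rw [Real.sqrt_lt' (by norm_num)]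
    norm_num
  have hs : 0 < √2 := by positivity
  rw [le_div_iff₀ (by positivity)]
  nlinarith

/-- balls and ellipsoids -/
theorem dLs_ell (L : V ≃ₗ[ℝ] V) (t : V) :
    ENNReal.ofReal 0.7404 ≤ dLs ((fun x => L x + t) '' Bl 1) := by
  have hcont : Continuous (fun x : V => L x + t) :=
    (LinearMap.continuous_of_finiteDimensional (L : V →ₗ[ℝ] V)).add continuous_const
  have hB : Body ((fun x => L x + t) '' Bl 1) := by
    refine ⟨bl_cpt.image hcont, ?_, ?_⟩
    · rintro _ ⟨x, hx, rfl⟩ _ ⟨y, hy, rfl⟩ a b ha hb hab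
      refine ⟨a • x + b • y, bl_body.2.1 hx hy ha hb hab, ?_⟩
      have e : t = a • t + b • t := by rw [← add_smul, hab, one_smul]
      simp only [map_add, map_smul, smul_add]
      nth_rewrite 1 [e]
      abel
    · have ho : IsOpenMap (fun x : V => L x + t) := by
        have h1 : IsOpenMap (L : V → V) :=
          (L.toContinuousLinearEquiv.toHomeomorph).isOpenMap
        exact (Homeomorph.addRight t).isOpenMap.comp h1
      obtain ⟨x, hx⟩ := bl_body.2.2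
      exact ⟨L x + t, ho.image_interior_subset _ ⟨x, hx, rfl⟩⟩
  have hsym : rfl' ((fun x => L x + t) '' Bl 1) (t + t) = (fun x => L x + t) '' Bl 1 := by
    ext y
    constructor
    · rintro ⟨_, ⟨x, hx, rfl⟩, rfl⟩
      refine ⟨-x, bl_neg hx, ?_⟩
      simp only [map_neg]
      abel
    · rintro ⟨x, hx, rfl⟩
      refine ⟨L (-x) + t, ⟨-x, bl_neg hx, rfl⟩, ?_⟩
      simp only [map_neg]
      abel
  have h := sym_dLs hB (t + t) hsym
  refine le_trans ?_ h
  rw [dL_eq, deltaL_image bl_cpt L t, ← dL_eq]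
  exact dL_ball

end Pool.Agent.N791.RU
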