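import Pool.Agent.TH219.DL.TUp

/-!
# Packings with reflected copies are at most twice as dense
-/

namespace Pool.Agent.N791.RU

open MeasureTheory Filter
open scoped ENNReal Pointwise
open Pool.Agent.H349R2.Tet Pool.Agent.TH219.DL

/-- the index of the reflection of a member in the origin -/
def ng (p : Bool × V) : Bool × V := (!p.1, -p.2)

theorem ng_ng (p : Bool × V) : ng (ng p) = p := by
  unfold ng
  simp

theorem ng_inj : Function.Injective ng := fun p q h => by
  rw [← ng_ng p, h, ng_ng]

theorem mem_ng (K : Set V) (p : Bool × V) : mem K (ng p) = -(mem K p) := by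
  obtain ⟨s, c⟩ := p
  unfold mem ng
  rw [← Set.image_neg_eq_neg, ← Set.image_comp]
  apply Set.image_congr
  intro x _
  cases s <;> simp [Function.comp, add_comm]

theorem bl_neg_eq (r : ℝ) : -(Bl r) = Bl r := by
  ext x
  rw [Set.mem_neg]
  constructor
  · intro h
    have := bl_neg h
    rwa [neg_neg] at this
  · exact fun h => bl_neg h

theorem vol_ng (K : Set V) (p : Bool × V) (r : ℝ) :
    volume (mem K (ng p) ∩ Bl r) = volume (mem K p ∩ Bl r) := by
  have : mem K (ng p) ∩ Bl r = -(mem K p ∩ Bl r) := by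
    rw [Set.inter_neg, mem_ng, bl_neg_eq]
  rw [this, Measure.measure_neg]

theorem interior_neg' (A : Set V) : interior (-A) = -(interior A) := by
  have h := Homeomorph.image_interior (Homeomorph.neg V) A
  have e : ∀ B : Set V, (Homeomorph.neg V) '' B = -B := fun B => by
    rw [← Set.image_neg_eq_neg]
    rfl
  rw [e, e] at h
  exact h.symm

theorem den_ng (K : Set V) (S : Set (Bool × V)) : den K (ng '' S) = den K S := by
  unfold den
  congr 1
  funext r
  congr 1
  rw [← (Equiv.Set.image ng S ng_inj).tsum_eq]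
  apply tsum_congr
  intro p
  exact vol_ng K p.1 r

theorem pack_ng {K : Set V} {S : Set (Bool × V)} (h : IsPack K S) : IsPack K (ng '' S) := by
  rintro _ ⟨p, hp, rfl⟩ _ ⟨q, hq, rfl⟩ hpq
  have hne : p ≠ q := fun e => hpq (by rw [e])
  have := h p hp q hq hne
  rw [mem_ng, mem_ng, interior_neg', interior_neg', Set.disjoint_left]
  intro x hx hy
  exact Set.disjoint_left.1 this hx hy

theorem limsup_add_le' {u v : ℝ → ℝ≥0∞} :
    limsup (fun r => u r + v r) atTop ≤ limsup u atTop + limsup v atTop := by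
  refine ENNReal.le_of_forall_pos_le_add fun ε hε hfin => ?_
  have hε' : (0 : ℝ≥0∞) < (ε : ℝ≥0∞) / 2 := by
    apply ENNReal.div_pos _ (by norm_num)
    exact_mod_cast hε.ne'
  have hu : limsup u atTop ≠ ∞ := fun e => by rw [e, top_add] at hfin; exact absurd hfin (lt_irrefl _)
  have hv : limsup v atTop ≠ ∞ := fun e => by rw [e, add_top] at hfin; exact absurd hfin (lt_irrefl _)
  have h1 : limsup u atTop < limsup u atTop + (ε : ℝ≥0∞) / 2 := ENNReal.lt_add_right hu hε'.ne'
  have h2 : limsup v atTop < limsup v atTop + (ε : ℝ≥0∞) / 2 := ENNReal.lt_add_right hv hε'.ne'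
  have e1 := eventually_lt_of_limsup_lt h1
  have e2 := eventually_lt_of_limsup_lt h2
  have : ∀ᶠ r in atTop, u r + v r ≤ limsup u atTop + limsup v atTop + ε := by
    filter_upwards [e1, e2] with r a b
    calc u r + v r ≤ (limsup u atTop + (ε : ℝ≥0∞) / 2) + (limsup v atTop + (ε : ℝ≥0∞) / 2) :=
          add_le_add a.le b.le
      _ = limsup u atTop + limsup v atTop + ((ε : ℝ≥0∞) / 2 + (ε : ℝ≥0∞) / 2) := by ring
      _ = _ := by rw [ENNReal.add_halves]
  exact limsup_le_of_le (by isBoundedDefault) this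

/-- splitting a family into its unreflected and its reflected members -/
theorem den_split (K : Set V) (S : Set (Bool × V)) :
    den K S ≤ den K {p | p ∈ S ∧ p.1 = false} + den K {p | p ∈ S ∧ p.1 = true} := by
  have h1 : ∀ r : ℝ, (∑' p : S, volume (mem K p.1 ∩ Bl r)) / volume (Bl r)
      ≤ (∑' p : {p | p ∈ S ∧ p.1 = false}, volume (mem K p.1 ∩ Bl r)) / volume (Bl r)
        + (∑' p : {p | p ∈ S ∧ p.1 = true}, volume (mem K p.1 ∩ Bl r)) / volume (Bl r) := by
    intro r
    rw [← ENNReal.add_div]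
    apply ENNReal.div_le_div_right
    have e : S = {p | p ∈ S ∧ p.1 = false} ∪ {p | p ∈ S ∧ p.1 = true} := by
      ext p
      constructor
      · intro hp
        cases h : p.1
        · exact Or.inl ⟨hp, h⟩
        · exact Or.inr ⟨hp, h⟩
      · rintro (h | h)
        · exact h.1
        · exact h.1
    calc (∑' p : S, volume (mem K p.1 ∩ Bl r))
        = ∑' p : ↑({p | p ∈ S ∧ p.1 = false} ∪ {p | p ∈ S ∧ p.1 = true}),
            volume (mem K p.1 ∩ Bl r) := by rw [← e]
      _ ≤ _ := ENNReal.tsum_union_le (fun p => volume (mem K p ∩ Bl r)) _ _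
  unfold den
  refine le_trans (limsup_le_limsup (Filter.Eventually.of_forall h1)) ?_
  exact limsup_add_le'

/-- `δ_{T*} ≤ 2 δ_T` for every body -/
theorem dTs_le (K : Set V) : dTs K ≤ 2 * dT K := by
  unfold dTs
  refine iSup₂_le fun S hS => ?_
  refine (den_split K S).trans ?_
  rw [two_mul]
  apply add_le_add
  · exact le_iSup₂_of_le (f := fun (S : Set (Bool × V))
      (_ : (∀ p ∈ S, p.1 = false) ∧ IsPack K S) => den K S) {p | p ∈ S ∧ p.1 = false}
      ⟨fun p hp => hp.2, fun p hp q hq h => hS p hp.1 q hq.1 h⟩ le_rfl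
  · rw [← den_ng K {p | p ∈ S ∧ p.1 = true}]
    refine le_iSup₂_of_le (f := fun (S : Set (Bool × V))
      (_ : (∀ p ∈ S, p.1 = false) ∧ IsPack K S) => den K S) (ng '' {p | p ∈ S ∧ p.1 = true})
      ⟨?_, pack_ng fun p hp q hq h => hS p hp.1 q hq.1 h⟩ le_rfl
    rintro _ ⟨p, hp, rfl⟩
    unfold ng
    rw [show p.1 = true from hp.2]
    rfl

theorem split_famLs_false (v : V) (b : Fin 3 → V) :
    {p | p ∈ famLs v b ∧ p.1 = false} = famL b := by
  ext p
  constructor
  · rintro ⟨h | h, h2⟩
    · exact h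
    · rw [h.1] at h2; exact absurd h2 (by decide)
  · rintro h
    exact ⟨Or.inl h, h.1⟩

theorem split_famLs_true (v : V) (b : Fin 3 → V) :
    {p | p ∈ famLs v b ∧ p.1 = true} = {p | p.1 = true ∧ ∃ u ∈ lat b, p.2 = v + u} := by
  ext p
  constructor
  · rintro ⟨h | h, h2⟩
    · rw [h.1] at h2; exact absurd h2 (by decide)
    · exact h
  · rintro h
    exact ⟨Or.inr h, h.1⟩

/-- the density of the reflected half of a double lattice packing -/
theorem den_true (K : Set V) (v : V) (b : Fin 3 → V) :
    den K {p | p.1 = true ∧ ∃ u ∈ lat b, p.2 = v + u} = dens (rfl' K v) b := by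
  unfold den dens
  congr 1
  funext r
  congr 1
  let e : lat b ≃ {p : Bool × V | p.1 = true ∧ ∃ u ∈ lat b, p.2 = v + u} :=
    { toFun := fun u => ⟨(true, v + u.1), rfl, u.1, u.2, rfl⟩
      invFun := fun p => ⟨-v + p.1.2, by
        obtain ⟨_, u, hu, h⟩ := p.2
        rw [h, neg_add_cancel_left]; exact hu⟩
      left_inv := fun u => by
        apply Subtype.ext
        show -v + (v + u.1) = u.1
        rw [neg_add_cancel_left]
      right_inv := fun p => by
        apply Subtype.ext
        have h1 : p.1.1 = true := p.2.1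
        apply Prod.ext
        · exact h1.symm
        · show v + (-v + p.1.2) = p.1.2
          rw [add_neg_cancel_left] }
  rw [← e.tsum_eq]
  apply tsum_congr
  intro u
  show volume (mem K (true, v + u.1) ∩ Bl r) = _
  rw [mem_true]

/-- `δ_{L*} ≤ 2 δ_L` for every compact set -/
theorem dLs_le {K : Set V} (hK : IsCompact K) : dLs K ≤ 2 * dL K := by
  unfold dLs
  refine iSup_le fun v => iSup₂_le fun b hb => ?_
  refine (den_split K _).trans ?_
  rw [split_famLs_false, split_famLs_true, den_true, den_famL, two_mul,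
    dens_eq b hb.1 _ (rfl_compact hK v), vol_rfl hK.measurableSet, ← dens_eq b hb.1 _ hK]
  have hp : LinearIndependent ℝ b ∧ IsPack K (famL b) := by
    refine ⟨hb.1, fun p hp q hq h => hb.2 p ?_ q ?_ h⟩
    · exact Or.inl hp
    · exact Or.inl hq
  have : dens K b ≤ dL K := by
    rw [← den_famL]
    exact le_iSup₂_of_le (f := fun (b : Fin 3 → V)
      (_ : LinearIndependent ℝ b ∧ IsPack K (famL b)) => den K (famL b)) b hp le_rfl
  exact add_le_add this this

theorem mn_dTs_le : mn dTs ≤ 2 * mn dT := by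
  unfold mn
  rw [ENNReal.mul_iInf_of_ne (by norm_num) (by norm_num)]
  refine le_iInf fun K => ?_
  rw [ENNReal.mul_iInf_of_ne (by norm_num) (by norm_num)]
  refine le_iInf fun hK => ?_
  exact (iInf₂_le K hK).trans (dTs_le K)

theorem mn_dLs_le : mn dLs ≤ 2 * mn dL := by
  unfold mn
  rw [ENNReal.mul_iInf_of_ne (by norm_num) (by norm_num)]
  refine le_iInf fun K => ?_
  rw [ENNReal.mul_iInf_of_ne (by norm_num) (by norm_num)]
  refine le_iInf fun hK => ?_
  exact (iInf₂_le K hK).trans (dLs_le hK.1)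

end Pool.Agent.N791.RU
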